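import Pool.Agent.Helper45_IntervalDim.Exists

/-!
# The ordered sets for which the equality of Q1 of MP_f8d954_co holds

A finite ordered set has a rank-preserving interval realizer at all iff it satisfies the level
condition (the first item below), and then the least size of a rank-preserving interval realizer
is the interval dimension.
-/

namespace Pool.Agent.Results.MP_f8d954_co.Characterization

open Pool.Agent.Helper45_IntervalDim

theorem result {P : Type*} [Finite P] (s : PartialOrder P) :
    List.TFAE [
      (∀ a f b : P, s.lt a f → rank s f < rank s b → s.lt a b),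
      (∃ m : ℕ, HasRankPreservingRealizer s m),
      (∃ k : ℕ, IsLeast {m : ℕ | HasIntervalRealizer s m} k ∧
        IsLeast {m : ℕ | HasRankPreservingRealizer s m} k)] := by
  have key : (∀ a f b : P, s.lt a f → rank s f < rank s b → s.lt a b) →
      ∀ m, HasIntervalRealizer s m → HasRankPreservingRealizer s m := by
    intro h m hm
    exact LevelCondition.hasRankPreservingRealizer h hm
  tfae_have 1 → 3 := by
    intro h
    classical
    have hex := exists_hasIntervalRealizer s
    refine ⟨Nat.find hex, ⟨Nat.find_spec hex, fun m hm => Nat.find_min' hex hm⟩,
      key h _ (Nat.find_spec hex), ?_⟩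
    rintro m ⟨r, hr⟩
    exact Nat.find_min' hex ⟨r, hr.1⟩
  tfae_have 3 → 2 := by
    rintro ⟨k, -, h⟩
    exact ⟨k, h.1⟩
  tfae_have 2 → 1 := by
    rintro ⟨m, hm⟩
    exact levelCondition_of_hasRankPreservingRealizer hm
  tfae_finish

end Pool.Agent.Results.MP_f8d954_co.Characterization
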