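import Pool.Agent.Helper45_IntervalDim.Example

/-!
# Disproof of Q1 of MP_f8d954_co

For every `k ≥ 2` there is a finite ordered set of interval dimension exactly `k` which has no
rank-preserving interval realizer of any size. For `k = 2` the example used in the proof is the
disjoint union of a two-element chain and a three-element chain.
-/

namespace Pool.Agent.Results.MP_f8d954_co.Disproof

open Pool.Agent.Helper45_IntervalDim

theorem result (k : ℕ) (hk : 2 ≤ k) :
    ∃ (P : Type) (_ : Finite P) (s : PartialOrder P),
      IsLeast {m : ℕ | HasIntervalRealizer s m} k ∧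
        ∀ m : ℕ, ¬ HasRankPreservingRealizer s m := by
  refine ⟨ExtStd k, inferInstance, extStd k, ⟨extStd_hasIntervalRealizer hk, ?_⟩, ?_⟩
  · intro m hm
    exact extStd_le_of_hasIntervalRealizer hm
  · intro m hm
    exact extStd_not_levelCondition hk (levelCondition_of_hasRankPreservingRealizer hm)

end Pool.Agent.Results.MP_f8d954_co.Disproof
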